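import Mathlib

namespace Pool.Agent.Results.MP_c12391_an.NoSummand

open Filter Topology Set Metric

/-- the slice of `C` determined by `f` and `a` -/
def slice {X : Type} [NormedAddCommGroup X] [NormedSpace ℝ X] (C : Set X) (f : StrongDual ℝ X)
    (a : ℝ) : Set X := {x | x ∈ C ∧ sSup (f '' C) - a < f x}

/-- almost preserved extreme point -/
def APEP {X : Type} [NormedAddCommGroup X] [NormedSpace ℝ X] (C : Set X) (x₀ : X) : Prop :=
  x₀ ∈ C ∧ ∀ U : Set (WeakSpace ℝ X), IsOpen U → toWeakSpace ℝ X x₀ ∈ U →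
    ∃ (f : StrongDual ℝ X) (a : ℝ), 0 < a ∧ (slice C f a).Nonempty ∧
      slice C f a ⊆ C ∩ toWeakSpace ℝ X ⁻¹' U

/-- `0` is an almost preserved extreme point of the closed unit ball -/
def ZeroAPEP (X : Type) [NormedAddCommGroup X] [NormedSpace ℝ X] : Prop :=
  APEP (closedBall (0 : X) 1) 0

abbrev E (n : ℕ) : Type := EuclideanSpace ℝ (Fin (n + 1))

abbrev X : Type := lp E 1

lemma not_apep (n : ℕ) : ¬ APEP (closedBall (0 : E n) 1) 0 := by
  rintro ⟨-, h⟩
  have hc : Continuous (toWeakSpace ℝ (E n)).symm := by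
    have : T2Space (WeakSpace ℝ (E n)) := inferInstance
    have : FiniteDimensional ℝ (WeakSpace ℝ (E n)) := (toWeakSpace ℝ (E n)).finiteDimensional
    exact LinearMap.continuous_of_finiteDimensional (toWeakSpace ℝ (E n)).symm.toLinearMap
  obtain ⟨f, a, ha, ⟨x, hx, hx'⟩, hs⟩ := h ((toWeakSpace ℝ (E n)).symm ⁻¹' ball 0 1)
    (isOpen_ball.preimage hc) (by simp)
  have key : ∃ y : E n, ‖y‖ = 1 ∧ f x ≤ f y := by
    obtain ⟨y, hy, hm⟩ := (isCompact_sphere (0 : E n) 1).exists_isMaxOn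
      (NormedSpace.sphere_nonempty.2 zero_le_one) f.continuous.continuousOn
    have hy1 : ‖y‖ = 1 := by simpa using hy
    have h0 : 0 ≤ f y := by
      have : f (-y) ≤ f y := hm (by simpa using hy1)
      rw [map_neg] at this
      linarith
    refine ⟨y, hy1, ?_⟩
    rcases eq_or_ne x 0 with rfl | hx0
    · simpa using h0
    · have hn : 0 < ‖x‖ := norm_pos_iff.2 hx0
      have h1 : f (‖x‖⁻¹ • x) ≤ f y := hm (by simp [norm_smul, hn.ne'])
      have h2 : ‖x‖ ≤ 1 := by simpa using hx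
      rw [map_smul, smul_eq_mul, inv_mul_le_iff₀ hn] at h1
      nlinarith
  obtain ⟨y, hy, hxy⟩ := key
  have := (hs ⟨by simp [hy], hx'.trans_le hxy⟩).2
  simp [hy] at this

lemma norm_split (x : X) (n : ℕ) : ‖x - lp.single 1 n (x n)‖ = ‖x‖ - ‖x n‖ := by
  have := lp.norm_compl_sum_single (p := 1) (by simp) x {n}
  simpa using this

lemma weak_nhds {U : Set (WeakSpace ℝ X)} (hU : IsOpen U) (h0 : toWeakSpace ℝ X 0 ∈ U) :
    ∃ (n : ℕ) (v : E n), ‖v‖ = 1 ∧ toWeakSpace ℝ X (lp.single 1 n v) ∈ U := by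
  have hn : U ∈ 𝓝 (0 : WeakSpace ℝ X) := hU.mem_nhds (by simpa using h0)
  have hi : IsInducing fun (x : WeakSpace ℝ X) (f : StrongDual ℝ X) =>
      f ((toWeakSpace ℝ X).symm x) := ⟨rfl⟩
  rw [hi.nhds_eq_comap, mem_comap] at hn
  obtain ⟨T, hT, hTU⟩ := hn
  rw [nhds_pi, Filter.mem_pi] at hT
  obtain ⟨I, hI, t, ht, hIT⟩ := hT
  have := hI.fintype
  let n := Fintype.card I
  let L : E n →ₗ[ℝ] (I → ℝ) :=
    LinearMap.pi fun f : I => (f : StrongDual ℝ X).toLinearMap ∘ₗ lp.lsingle 1 n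
  have hk : LinearMap.ker L ≠ ⊥ := LinearMap.ker_ne_bot_of_finrank_lt (by simp [n])
  obtain ⟨w, hw, hw0⟩ := Submodule.exists_mem_ne_zero_of_ne_bot hk
  have hw' : L (‖w‖⁻¹ • w) = 0 := by rw [map_smul, LinearMap.mem_ker.1 hw, smul_zero]
  refine ⟨n, ‖w‖⁻¹ • w, by simp [norm_smul, hw0], hTU (hIT fun f hf => ?_)⟩
  have e : f (lp.single 1 n (‖w‖⁻¹ • w)) = 0 := congrFun hw' ⟨f, hf⟩
  have := mem_of_mem_nhds (ht f)
  simp only [map_zero] at this
  show f (lp.single 1 n (‖w‖⁻¹ • w)) ∈ t f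
  rwa [e]

lemma apep : APEP (closedBall (0 : X) 1) 0 := by
  refine ⟨by simp, fun U hU h0 => ?_⟩
  obtain ⟨n, v, hv, hvU⟩ := weak_nhds hU h0
  have hO : IsOpen (toWeakSpace ℝ X ⁻¹' U) := hU.preimage (toWeakSpaceCLM ℝ X).continuous
  obtain ⟨ε, hε, hb⟩ := Metric.isOpen_iff.1 hO (lp.single 1 n v) hvU
  let P : X →L[ℝ] E n := LinearMap.mkContinuous
    { toFun := fun x => x n, map_add' := fun _ _ => rfl, map_smul' := fun _ _ => rfl } 1
    fun x => by simpa using lp.norm_apply_le_norm (by simp) x n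
  let f : StrongDual ℝ X := (innerSL ℝ v).comp P
  have hf : ∀ x : X, f x = inner ℝ v (x n) := fun x => rfl
  have hs1 : ‖(lp.single 1 n v : X)‖ = 1 := by rw [lp.norm_single (by simp), hv]
  have hf1 : f (lp.single 1 n v) = 1 := by
    rw [hf, lp.single_apply_self, real_inner_self_eq_norm_sq, hv, one_pow]
  have hle : ∀ x : X, f x ≤ ‖x n‖ := fun x => by
    simpa [hf, hv] using real_inner_le_norm v (x n)
  have hsup : sSup (f '' closedBall (0 : X) 1) = 1 := by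
    refine IsGreatest.csSup_eq ⟨⟨_, by simp [hs1], hf1⟩, ?_⟩
    rintro _ ⟨x, hx, rfl⟩
    exact (hle x).trans ((lp.norm_apply_le_norm (by simp) x n).trans (by simpa using hx))
  refine ⟨f, min (ε / 2) (ε ^ 2 / 8), by positivity, ⟨lp.single 1 n v, by simp [hs1], ?_⟩, ?_⟩
  · rw [hsup, hf1, sub_lt_self_iff]; positivity
  · rintro x ⟨hx, hx'⟩
    refine ⟨hx, hb ?_⟩
    rw [hsup] at hx'
    have h1 : ‖x‖ ≤ 1 := by simpa using hx
    have h2 : ‖x n‖ ≤ 1 := (lp.norm_apply_le_norm (by simp) x n).trans h1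
    have m1 := min_le_left (ε / 2) (ε ^ 2 / 8)
    have m2 := min_le_right (ε / 2) (ε ^ 2 / 8)
    have h3 : ‖x - lp.single 1 n (x n)‖ < ε / 2 := by
      rw [norm_split]; linarith [hle x]
    have h4 : ‖v - x n‖ < ε / 2 := by
      refine lt_of_pow_lt_pow_left₀ 2 (by positivity) ?_
      rw [norm_sub_sq_real, hv, ← hf]
      nlinarith [norm_nonneg (x n)]
    have h5 : ‖(lp.single 1 n (x n) - lp.single 1 n v : X)‖ < ε / 2 := by
      rw [← lp.single_sub, lp.norm_single (by simp), norm_sub_rev]; exact h4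
    rw [mem_ball_iff_norm]
    linarith [norm_sub_le_norm_sub_add_norm_sub x (lp.single 1 n (x n)) (lp.single 1 n v)]

theorem result : ZeroAPEP X ∧ ∀ n : ℕ, ¬ ZeroAPEP (E n) := ⟨apep, not_apep⟩

end Pool.Agent.Results.MP_c12391_an.NoSummand
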